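import Pool.Agent.Helper95.FL.StmtsG

/-! Project XT (captain helper95), pieces G-C and G-B: cardinalities. -/

set_option autoImplicit false

namespace Pool.Agent.Helper71.FL

open Pool.Agent.Helper95.FL
open Pool.Agent.Helper95.FL.FD

section
variable {K : Type} [Field K] {m : ℕ} (F : FD K m)

lemma sg_inj {s : Fin 3} {c d : K} (h : sg s c = sg s d) : c = d := by
  have := congrFun (congrFun h s) s
  simpa [sg] using this

lemma sg_h1 (s : Fin 3) (c : K) (ε : Fin 3 → Bool) :
    sg s c + F.ct (sg s c) + F.ct (sg s c) * F.A ε * sg s c = sg s (c + F.st c + F.st c * c) := by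
  rw [ct_sg, sg_mul, ← sg_add, ← sg_add]

/-- the chamber with constant matrix `sg s c` -/
noncomputable def chC (s : Fin 3) (c : K) (h : c + F.st c + F.st c * c = 0) : F.Ch := fun ε =>
  { C := sg s c
    h1 := by rw [sg_h1, h, sg_zero]
    h2 := by rw [ct_sg, sg_mul, ← sg_add, ← sg_add, mul_comm c, h, sg_zero] }

end

/-- G-C -/
theorem stCardU : StCardU := by
  intro K _ m F s
  symm
  refine Nat.card_congr (Equiv.ofBijective
    (fun c : {c : K // F.τ c = c ∧ c + F.st c + F.st c * c = 0} =>
      (⟨chC F s c.1 c.2.2, c.1, c.2.1, fun ε => rfl⟩ : F.U s)) ⟨?_, ?_⟩)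
  · intro c d h
    have h1 : chC F s c.1 c.2.2 = chC F s d.1 d.2.2 := congrArg Subtype.val h
    have h2 : mat (chC F s c.1 c.2.2) (fun _ => false) = mat (chC F s d.1 d.2.2) (fun _ => false) := by
      rw [h1]
    exact Subtype.ext (sg_inj (s := s) h2)
  · rintro ⟨g, c, hc, hg⟩
    have h1 := (g (fun _ => false)).h1
    have h2 : (g (fun _ => false)).C = sg s c := hg _
    rw [h2, sg_h1] at h1
    have h3 : c + F.st c + F.st c * c = 0 := by
      have := congrFun (congrFun h1 s) s
      simpa [sg] using this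
    refine ⟨⟨c, hc, h3⟩, Subtype.ext (ch_ext fun ε => ?_)⟩
    exact (hg ε).symm

/-- G-B -/
theorem stCardCh : StCardCh := by
  intro K _ _ m F
  have hinj : Function.Injective
      (fun g : F.Ch => (fun ε => mat g ε : (Fin 3 → Bool) → Mat3 K)) := by
    intro g h hgh
    exact ch_ext fun ε => congrFun hgh ε
  have hfin : Finite ((Fin 3 → Bool) → Mat3 K) := by
    unfold Mat3 Matrix
    infer_instance
  refine ⟨Finite.of_injective _ hinj, (Nat.card_le_card_of_injective _ hinj).trans (le_of_eq ?_)⟩
  unfold Mat3 Matrix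
  rw [Nat.card_eq_fintype_card]
  simp only [Fintype.card_fun, Fintype.card_fin, Fintype.card_bool]
  rw [← pow_mul, ← pow_mul]
  norm_num

end Pool.Agent.Helper71.FL
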