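import Pool.Agent.Helper95.FL.Stmts2

/-! Project XT (captain helper95), piece C-3: three pairwise adjacent vertices. -/

set_option autoImplicit false

namespace Pool.Agent.Helper71.FL

open Pool.Agent.Helper95.FL
open scoped Classical

lemma vert_eq {G : Type} [Group G] (H : Fin 3 → Subgroup G) (t : Fin 3) (x y : G) :
    (grpCx H).vert t x = (grpCx H).vert t y ↔ x⁻¹ * y ∈ H t := by
  constructor
  · intro h
    have h2 : (⟨t, (x : G ⧸ H t)⟩ : Σ t : Fin 3, G ⧸ H t) = ⟨t, (y : G ⧸ H t)⟩ := h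
    have h3 := eq_of_heq (Sigma.mk.inj h2).2
    exact QuotientGroup.eq.1 h3
  · intro h
    have h3 : (x : G ⧸ H t) = (y : G ⧸ H t) := QuotientGroup.eq.2 h
    change (⟨t, (x : G ⧸ H t)⟩ : Σ t : Fin 3, G ⧸ H t) = ⟨t, (y : G ⧸ H t)⟩
    rw [h3]

lemma U_le {G : Type} [Group G] {U H : Fin 3 → Subgroup G} {m : ℕ} (hG : Geo U H m)
    {a l : Fin 3} (h : a ≠ l) : U l ≤ H a := by
  have h2 : ∃ b : Fin 3, a ≠ b ∧ b ≠ l := by
    revert a l
    decide
  obtain ⟨b, h3, h4⟩ := h2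
  rw [← hG.inter a b l h3 h h4]
  exact inf_le_left

/-- C-3 -/
theorem stClique3 : StClique3 := by
  intro G _ U H m hG u v w huv hvw huw
  obtain ⟨n1, g1, e1, e1'⟩ := huv
  obtain ⟨n2, g2, e2, e2'⟩ := hvw
  obtain ⟨n3, g3, e3, e3'⟩ := huw
  generalize (grpCx H).ty u = a at *
  generalize (grpCx H).ty v = b at *
  generalize (grpCx H).ty w = l at *
  have h1 : g1⁻¹ * g2 ∈ H b := (vert_eq H b g1 g2).1 (e1'.trans e2.symm)
  have h2 : g2⁻¹ * g3 ∈ H l := (vert_eq H l g2 g3).1 (e2'.trans e3'.symm)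
  have h3 : g1⁻¹ * g3 ∈ H a := (vert_eq H a g1 g3).1 (e1.trans e3.symm)
  have h4 : g1⁻¹ * g2 * (g2⁻¹ * g3) ∈ H a := by
    have : g1⁻¹ * g2 * (g2⁻¹ * g3) = g1⁻¹ * g3 := by group
    rw [this]
    exact h3
  obtain ⟨p, hp, q, hq, hpq⟩ := hG.l3 a b l n1 n3 n2 _ h1 _ h2 h4
  refine ⟨g2 * p, ?_, ?_, ?_⟩
  · rw [← e3, vert_eq]
    have : (g2 * p)⁻¹ * g3 = q := by
      have h5 : g3 = g2 * (p * q) := by rw [← hpq]; group
      rw [h5]
      group
    rw [this]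
    exact U_le hG n1 hq
  · rw [← e2, vert_eq]
    have : (g2 * p)⁻¹ * g2 = p⁻¹ := by group
    rw [this]
    exact inv_mem (U_le hG n1.symm hp)
  · rw [← e2', vert_eq]
    have : (g2 * p)⁻¹ * g2 = p⁻¹ := by group
    rw [this]
    exact inv_mem (U_le hG n3.symm hp)

end Pool.Agent.Helper71.FL
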