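import Mathlib

/-!
# Invariant forms on a symmetric space

For a connected semisimple Lie group `G` with Lie algebra `L` and maximal compact subgroup `K`, with
Cartan involution `θ`, the `G`-invariant differential forms of degree `k` on `G/K` are the
alternating `k`-forms on `L` which vanish when an argument lies in the Lie algebra of `K` (the fixed
vectors of `θ`) and are invariant under that Lie algebra.
-/

set_option autoImplicit false

namespace Pool.Agent.Helper71.FL

variable {L : Type*} [LieRing L] [LieAlgebra ℝ L]

/-- The forms on `L` which vanish on the vectors fixed by `θ` and are invariant under them: for a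
connected semisimple Lie group `G` with Lie algebra `L` and the maximal compact subgroup `K` with
Lie algebra the fixed vectors of the Cartan involution `θ`, these are the `G`-invariant differential
forms of degree `k` on `G/K`. -/
structure IsInvForm (θ : L →ₗ⁅ℝ⁆ L) {k : ℕ} (η : L [⋀^Fin k]→ₗ[ℝ] ℝ) : Prop where
  horizontal : ∀ (v : Fin k → L) (i : Fin k), θ (v i) = v i → η v = 0
  invariant : ∀ (y : L) (v : Fin k → L), θ y = y →
    ∑ i, η (Function.update v i ⁅y, v i⁆) = 0

end Pool.Agent.Helper71.FL
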