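import Pool.Agent.Helper71.FL.Defs

/-!
# Invariant forms on symmetric spaces and flat factors

`L` is a finite-dimensional real Lie algebra with non-degenerate Killing form and `θ` an involutive
automorphism. The invariant forms of the symmetric space attached to `(L, θ)` are the alternating
forms on `L` which vanish when an argument is fixed by `θ` and are invariant under the fixed
subalgebra of `θ`. They vanish on tuples of vectors of the `-1` eigenspace one of which commutes
with all the others.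
-/

set_option linter.unusedSectionVars false
set_option autoImplicit false

open Module

namespace Pool.Agent.Helper71.FL

section Dual

variable {V : Type*} [AddCommGroup V] [Module ℝ V] [FiniteDimensional ℝ V]
variable {ι : Type*} [Fintype ι] [DecidableEq ι]

/-- Expansion of a vector in a basis by the dual basis. -/
theorem expand_b (K : LinearMap.BilinForm ℝ V) (b d : ι → V)
    (hK : ∀ w : V, w = ∑ i, K (d i) w • b i) (hd : ∀ w : V, w = ∑ i, K (b i) w • d i)
    (f : V →ₗ[ℝ] V →ₗ[ℝ] ℝ) (T T' : V →ₗ[ℝ] V)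
    (hT : ∀ x y, K (b x) (T (d y)) = K (d y) (T' (b x))) :
    ∑ i, f (b i) (T (d i)) = ∑ i, f (T' (b i)) (d i) := by
  have h1 : ∀ i, f (b i) (T (d i)) = ∑ l, K (b l) (T (d i)) * f (b i) (d l) := by
    intro i
    conv_lhs => rw [hd (T (d i))]
    rw [map_sum]
    refine Finset.sum_congr rfl fun l _ => ?_
    rw [map_smul, smul_eq_mul]
  have h2 : ∀ l, f (T' (b l)) (d l) = ∑ i, K (d i) (T' (b l)) * f (b i) (d l) := by
    intro l
    conv_lhs => rw [hK (T' (b l))]
    rw [map_sum, LinearMap.sum_apply]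
    refine Finset.sum_congr rfl fun i _ => ?_
    rw [map_smul, LinearMap.smul_apply, smul_eq_mul]
  rw [Finset.sum_congr rfl fun i _ => h1 i, Finset.sum_congr rfl fun l _ => h2 l,
    Finset.sum_comm]
  refine Finset.sum_congr rfl fun l _ => Finset.sum_congr rfl fun i _ => ?_
  rw [hT l i]

end Dual

variable {L : Type*} [LieRing L] [LieAlgebra ℝ L] [FiniteDimensional ℝ L]

/-- The projection to the fixed vectors. -/
noncomputable def Qm (θ : L →ₗ⁅ℝ⁆ L) : L →ₗ[ℝ] L := (1 / 2 : ℝ) • (LinearMap.id + (θ : L →ₗ[ℝ] L))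

/-- The projection to the vectors with `θ x = -x`. -/
noncomputable def Pm (θ : L →ₗ⁅ℝ⁆ L) : L →ₗ[ℝ] L := (1 / 2 : ℝ) • (LinearMap.id - (θ : L →ₗ[ℝ] L))

theorem Qm_apply (θ : L →ₗ⁅ℝ⁆ L) (x : L) : Qm θ x = (1 / 2 : ℝ) • (x + θ x) := by
  simp [Qm]

theorem Pm_apply (θ : L →ₗ⁅ℝ⁆ L) (x : L) : Pm θ x = (1 / 2 : ℝ) • (x - θ x) := by
  simp [Pm]

theorem Qm_add_Pm (θ : L →ₗ⁅ℝ⁆ L) (x : L) : Qm θ x + Pm θ x = x := by
  rw [Qm_apply, Pm_apply, ← smul_add]
  rw [show x + θ x + (x - θ x) = (2 : ℝ) • x by rw [two_smul]; abel, smul_smul]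
  norm_num

section Invol

variable (θ : L →ₗ⁅ℝ⁆ L) (hθ : ∀ x, θ (θ x) = x)

include hθ

theorem theta_Qm (x : L) : θ (Qm θ x) = Qm θ x := by
  rw [Qm_apply, map_smul, map_add, hθ, add_comm]

theorem theta_Pm (x : L) : θ (Pm θ x) = -Pm θ x := by
  rw [Pm_apply, map_smul, map_sub, hθ, ← smul_neg, neg_sub]

omit hθ in
theorem Qm_fix {x : L} (hx : θ x = x) : Qm θ x = x := by
  rw [Qm_apply, hx, ← two_smul ℝ x, smul_smul]
  norm_num

omit hθ in
theorem Pm_fix {x : L} (hx : θ x = -x) : Pm θ x = x := by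
  rw [Pm_apply, hx, sub_neg_eq_add, ← two_smul ℝ x, smul_smul]
  norm_num

theorem Qm_Qm (x : L) : Qm θ (Qm θ x) = Qm θ x := Qm_fix θ (theta_Qm θ hθ x)

theorem Pm_Pm (x : L) : Pm θ (Pm θ x) = Pm θ x := Pm_fix θ (theta_Pm θ hθ x)

/-- `[X, Q y]` is the `-1` component of `[X, y]` if `θ X = -X`. -/
theorem Pm_lie {X : L} (hX : θ X = -X) (y : L) : Pm θ ⁅X, y⁆ = ⁅X, Qm θ y⁆ := by
  rw [Pm_apply, Qm_apply, lie_smul, LieHom.map_lie, hX, neg_lie, sub_neg_eq_add, lie_add]

end Invol

section Killing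

variable [LieAlgebra.IsKilling ℝ L]

/-- A basis and its dual basis with respect to the Killing form. -/
theorem exists_dual : ∃ (n : ℕ) (b d : Fin n → L),
    (∀ w : L, w = ∑ i, killingForm ℝ L (d i) w • b i) ∧
    (∀ w : L, w = ∑ i, killingForm ℝ L (b i) w • d i) ∧
    (∀ T : L →ₗ[ℝ] L, LinearMap.trace ℝ L T = ∑ i, killingForm ℝ L (d i) (T (b i))) := by
  classical
  have hn : (killingForm ℝ L).Nondegenerate := LieAlgebra.IsKilling.killingForm_nondegenerate ℝ L
  have hs : LinearMap.IsSymm (killingForm ℝ L) := LieModule.traceForm_isSymm ℝ L L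
  set b := Module.finBasis ℝ L with hb
  set d := LinearMap.BilinForm.dualBasis (killingForm ℝ L) hn b with hd
  have h1 : ∀ i j, killingForm ℝ L (d i) (b j) = if j = i then 1 else 0 := fun i j =>
    LinearMap.BilinForm.apply_dualBasis_left hn b i j
  have hbr : ∀ w i, b.repr w i = killingForm ℝ L (d i) w := by
    intro w i
    conv_rhs => rw [← b.sum_repr w]
    rw [map_sum, Finset.sum_eq_single i]
    · rw [map_smul, h1, if_pos rfl, smul_eq_mul, mul_one]
    · intro j _ hji
      rw [map_smul, h1, if_neg hji, smul_zero]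
    · intro h
      exact absurd (Finset.mem_univ _) h
  have hdr : ∀ w i, d.repr w i = killingForm ℝ L (b i) w := by
    intro w i
    conv_rhs => rw [← d.sum_repr w]
    rw [map_sum, Finset.sum_eq_single i]
    · rw [map_smul, LieModule.traceForm_comm, h1, if_pos rfl, smul_eq_mul, mul_one]
    · intro j _ hji
      rw [map_smul, LieModule.traceForm_comm, h1, if_neg (Ne.symm hji), smul_zero]
    · intro h
      exact absurd (Finset.mem_univ _) h
  refine ⟨_, b, d, fun w => ?_, fun w => ?_, fun T => ?_⟩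
  · conv_lhs => rw [← b.sum_repr w]
    exact Finset.sum_congr rfl fun i _ => by rw [hbr]
  · conv_lhs => rw [← d.sum_repr w]
    exact Finset.sum_congr rfl fun i _ => by rw [hdr]
  · rw [LinearMap.trace_eq_matrix_trace ℝ b, Matrix.trace]
    refine Finset.sum_congr rfl fun i _ => ?_
    rw [Matrix.diag_apply, LinearMap.toMatrix_apply, hbr]

theorem killing_lie (x y z : L) :
    killingForm ℝ L ⁅x, y⁆ z = killingForm ℝ L x ⁅y, z⁆ :=
  LieModule.traceForm_apply_lie_apply ℝ L L x y z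

theorem killing_comm (x y : L) : killingForm ℝ L x y = killingForm ℝ L y x :=
  LieModule.traceForm_comm ℝ L L x y

theorem killing_theta (θ : L →ₗ⁅ℝ⁆ L) (hθ : ∀ x, θ (θ x) = x) (x y : L) :
    killingForm ℝ L (θ x) y = killingForm ℝ L x (θ y) := by
  let e : L ≃ₗ⁅ℝ⁆ L :=
    { θ with
      invFun := θ
      left_inv := hθ
      right_inv := hθ }
  have h := LieAlgebra.killingForm_of_equiv_apply (R := ℝ) e (θ x) y
  have h1 : e (θ x) = x := hθ x
  have h2 : e y = θ y := rfl
  rw [h1, h2] at h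
  exact h.symm

/-- The Casimir element acts as the identity. -/
theorem casimir {n : ℕ} (b d : Fin n → L)
    (htr : ∀ T : L →ₗ[ℝ] L, LinearMap.trace ℝ L T = ∑ i, killingForm ℝ L (d i) (T (b i)))
    (x : L) : x = ∑ i, ⁅b i, ⁅d i, x⁆⁆ := by
  have hn : (killingForm ℝ L).Nondegenerate := LieAlgebra.IsKilling.killingForm_nondegenerate ℝ L
  rw [← sub_eq_zero]
  apply hn.1
  intro y
  rw [map_sub, LinearMap.sub_apply, sub_eq_zero, killingForm_apply_apply, htr, map_sum,
    LinearMap.sum_apply]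
  refine Finset.sum_congr rfl fun i _ => ?_
  rw [LinearMap.comp_apply, LieAlgebra.ad_apply, LieAlgebra.ad_apply]
  calc killingForm ℝ L (d i) ⁅x, ⁅y, b i⁆⁆ = killingForm ℝ L ⁅d i, x⁆ ⁅y, b i⁆ :=
        (killing_lie _ _ _).symm
    _ = killingForm ℝ L ⁅y, b i⁆ ⁅d i, x⁆ := killing_comm _ _
    _ = killingForm ℝ L y ⁅b i, ⁅d i, x⁆⁆ := killing_lie _ _ _
    _ = killingForm ℝ L ⁅b i, ⁅d i, x⁆⁆ y := killing_comm _ _

/-- The two Casimir sums agree for any bilinear map. -/
theorem casimir_swap (θ : L →ₗ⁅ℝ⁆ L) (hθ : ∀ x, θ (θ x) = x) {n : ℕ} (b d : Fin n → L)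
    (hb : ∀ w : L, w = ∑ i, killingForm ℝ L (d i) w • b i)
    (hd : ∀ w : L, w = ∑ i, killingForm ℝ L (b i) w • d i)
    (f : L →ₗ[ℝ] L →ₗ[ℝ] ℝ) (x X : L) (hX : θ X = -X) :
    ∑ i, f (Pm θ (b i)) ⁅⁅Pm θ (d i), X⁆, x⁆ = ∑ i, f ⁅X, Qm θ (b i)⁆ ⁅Qm θ (d i), x⁆ := by
  have hQ : ∀ u w : L, killingForm ℝ L u (Qm θ w) = killingForm ℝ L (Qm θ u) w := by
    intro u w
    rw [Qm_apply, Qm_apply, map_smul, map_add, map_smul, map_add, LinearMap.smul_apply,
      LinearMap.add_apply, killing_theta θ hθ]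
  have hP : ∀ u w : L, killingForm ℝ L u (Pm θ w) = killingForm ℝ L (Pm θ u) w := by
    intro u w
    rw [Pm_apply, Pm_apply, map_smul, map_sub, map_smul, map_sub, LinearMap.smul_apply,
      LinearMap.sub_apply, killing_theta θ hθ]
  -- the bilinear map `(u, w) ↦ f (P u) [w, x]`
  set g : L →ₗ[ℝ] L →ₗ[ℝ] ℝ :=
    (f.comp (Pm θ)).compl₂ (-(LieAlgebra.ad ℝ L x : L →ₗ[ℝ] L)) with hg
  have hga : ∀ u w, g u w = f (Pm θ u) ⁅w, x⁆ := by
    intro u w
    rw [hg, LinearMap.compl₂_apply, LinearMap.comp_apply, LinearMap.neg_apply,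
      LieAlgebra.ad_apply, lie_skew]
  have h1 := expand_b (killingForm ℝ L) b d hb hd g
    ((-(LieAlgebra.ad ℝ L X : L →ₗ[ℝ] L)).comp (Pm θ))
    ((Pm θ).comp (LieAlgebra.ad ℝ L X : L →ₗ[ℝ] L))
    (fun i j => by
      rw [LinearMap.comp_apply, LinearMap.comp_apply, LinearMap.neg_apply, LieAlgebra.ad_apply,
        LieAlgebra.ad_apply, lie_skew, hP, killing_comm, killing_lie])
  have h2 : ∀ i, g (b i) (((-(LieAlgebra.ad ℝ L X : L →ₗ[ℝ] L)).comp (Pm θ)) (d i)) =
      f (Pm θ (b i)) ⁅⁅Pm θ (d i), X⁆, x⁆ := by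
    intro i
    rw [hga, LinearMap.comp_apply, LinearMap.neg_apply, LieAlgebra.ad_apply, lie_skew]
  have h3 : ∀ i, g (((Pm θ).comp (LieAlgebra.ad ℝ L X : L →ₗ[ℝ] L)) (b i)) (d i) =
      f ⁅X, Qm θ (b i)⁆ ⁅d i, x⁆ := by
    intro i
    rw [hga, LinearMap.comp_apply, LieAlgebra.ad_apply, Pm_Pm θ hθ, Pm_lie θ hθ hX]
  rw [Finset.sum_congr rfl fun i _ => h2 i, Finset.sum_congr rfl fun i _ => h3 i] at h1
  rw [h1]
  set g' : L →ₗ[ℝ] L →ₗ[ℝ] ℝ :=
    (f.comp (LieAlgebra.ad ℝ L X : L →ₗ[ℝ] L)).compl₂ (-(LieAlgebra.ad ℝ L x : L →ₗ[ℝ] L)) with hg'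
  have hg'a : ∀ u w, g' u w = f ⁅X, u⁆ ⁅w, x⁆ := by
    intro u w
    rw [hg', LinearMap.compl₂_apply, LinearMap.comp_apply, LinearMap.neg_apply,
      LieAlgebra.ad_apply, LieAlgebra.ad_apply, lie_skew]
  set g'' : L →ₗ[ℝ] L →ₗ[ℝ] ℝ := g'.comp (Qm θ) with hg''
  have h4 := expand_b (killingForm ℝ L) b d hb hd g'' (Qm θ) (Qm θ)
    (fun i j => by rw [hQ, killing_comm])
  have h5 : ∀ u w, g'' u w = f ⁅X, Qm θ u⁆ ⁅w, x⁆ := by
    intro u w
    rw [hg'', LinearMap.comp_apply, hg'a]
  rw [Finset.sum_congr rfl fun i _ => h5 (b i) (Qm θ (d i)),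
    Finset.sum_congr rfl fun i _ => h5 (Qm θ (b i)) (d i)] at h4
  rw [h4]
  exact Finset.sum_congr rfl fun i _ => by rw [Qm_Qm θ hθ]

/-- Interchanging the vectors in two slots. -/
theorem alt_swap {k : ℕ} (η : L [⋀^Fin k]→ₗ[ℝ] ℝ) (v : Fin k → L) {i j : Fin k} (hij : i ≠ j)
    (a c : L) :
    η (Function.update (Function.update v i a) j c) =
      -η (Function.update (Function.update v i c) j a) := by
  rw [← η.map_swap _ hij]
  congr 1
  funext l
  rw [Function.comp_apply]
  by_cases hl : l = i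
  · subst hl
    rw [Equiv.swap_apply_left, Function.update_self, Function.update_of_ne hij,
      Function.update_self]
  · by_cases hl' : l = j
    · subst hl'
      rw [Equiv.swap_apply_right, Function.update_of_ne hij, Function.update_self,
        Function.update_self]
    · rw [Equiv.swap_apply_of_ne_of_ne hl hl', Function.update_of_ne hl', Function.update_of_ne hl,
        Function.update_of_ne hl', Function.update_of_ne hl]

/-- The form as a bilinear map of the vectors in two slots. -/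
noncomputable def bil {k : ℕ} (η : L [⋀^Fin k]→ₗ[ℝ] ℝ) (v : Fin k → L) (i j : Fin k)
    (hij : i ≠ j) : L →ₗ[ℝ] L →ₗ[ℝ] ℝ :=
  LinearMap.mk₂ ℝ (fun a c => η (Function.update (Function.update v i a) j c))
    (fun a a' c => by
      rw [Function.update_comm hij, Function.update_comm hij, Function.update_comm hij,
        η.map_update_add])
    (fun r a c => by
      rw [Function.update_comm hij, Function.update_comm hij, η.map_update_smul])
    (fun a c c' => by rw [η.map_update_add])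
    (fun r a c => by rw [η.map_update_smul])

/-- KEY STATEMENT: invariant forms vanish on a vector and others commuting with it. -/
theorem flat_zero (θ : L →ₗ⁅ℝ⁆ L) (hθ : ∀ x, θ (θ x) = x) {k : ℕ} (η : L [⋀^Fin k]→ₗ[ℝ] ℝ)
    (hη : IsInvForm θ η) (v : Fin k → L) (hv : ∀ i, θ (v i) = -v i) (i₀ : Fin k)
    (hc : ∀ j, ⁅v i₀, v j⁆ = 0) : η v = 0 := by
  classical
  obtain ⟨n, b, d, hb, hd, htr⟩ := exists_dual (L := L)
  set x := v i₀ with hx
  have hθx : θ x = -x := hv i₀
  -- the linear functional of the vector in slot `i₀`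
  set h : L →ₗ[ℝ] ℝ := η.toMultilinearMap.toLinearMap v i₀ with hh
  have hha : ∀ w, h w = η (Function.update v i₀ w) := fun w => rfl
  have hk : ∀ w, θ w = w → h w = 0 := by
    intro w hw
    rw [hha]
    exact hη.horizontal _ i₀ (by rw [Function.update_self, hw])
  have h0 : η v = h x := by
    rw [hha, hx, Function.update_eq_self]
  have hsplit : ∀ i, h ⁅b i, ⁅d i, x⁆⁆ =
      h ⁅Qm θ (b i), ⁅Qm θ (d i), x⁆⁆ + h ⁅Pm θ (b i), ⁅Pm θ (d i), x⁆⁆ := by
    intro i
    have e1 : h ⁅Pm θ (b i), ⁅Qm θ (d i), x⁆⁆ = 0 := by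
      apply hk
      rw [LieHom.map_lie, LieHom.map_lie, theta_Pm θ hθ, theta_Qm θ hθ, hθx, lie_neg, neg_lie,
        lie_neg, neg_neg]
    have e2 : h ⁅Qm θ (b i), ⁅Pm θ (d i), x⁆⁆ = 0 := by
      apply hk
      rw [LieHom.map_lie, LieHom.map_lie, theta_Pm θ hθ, theta_Qm θ hθ, hθx, lie_neg, neg_lie,
        neg_neg]
    calc h ⁅b i, ⁅d i, x⁆⁆ = h ⁅Qm θ (b i) + Pm θ (b i), ⁅Qm θ (d i) + Pm θ (d i), x⁆⁆ := by
          rw [Qm_add_Pm, Qm_add_Pm]
      _ = _ := by
          rw [add_lie (Qm θ (d i)), lie_add, add_lie, add_lie, map_add, map_add, map_add, e1, e2]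
          ring
  have hS1 : ∀ i, h ⁅Qm θ (b i), ⁅Qm θ (d i), x⁆⁆ =
      -∑ j ∈ Finset.univ.erase i₀, η (Function.update (Function.update v i₀ ⁅Qm θ (d i), x⁆) j
        ⁅Qm θ (b i), v j⁆) := by
    intro i
    have h1 := hη.invariant (Qm θ (b i)) (Function.update v i₀ ⁅Qm θ (d i), x⁆)
      (theta_Qm θ hθ _)
    rw [← Finset.add_sum_erase _ _ (Finset.mem_univ i₀), Function.update_self,
      Function.update_idem] at h1
    rw [hha, eq_neg_iff_add_eq_zero, ← h1]
    congr 1
    refine Finset.sum_congr rfl fun j hj => ?_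
    rw [Function.update_of_ne (Finset.ne_of_mem_erase hj)]
  have hS2 : ∀ i, h ⁅Pm θ (b i), ⁅Pm θ (d i), x⁆⁆ =
      ∑ j ∈ Finset.univ.erase i₀, η (Function.update (Function.update v i₀ (Pm θ (b i))) j
        ⁅⁅Pm θ (d i), v j⁆, x⁆) := by
    intro i
    have h1 := hη.invariant ⁅Pm θ (d i), x⁆ (Function.update v i₀ (Pm θ (b i)))
      (by rw [LieHom.map_lie, theta_Pm θ hθ, hθx, neg_lie, lie_neg, neg_neg])
    rw [← Finset.add_sum_erase _ _ (Finset.mem_univ i₀), Function.update_self,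
      Function.update_idem] at h1
    rw [← lie_skew, map_neg, hha, neg_eq_iff_add_eq_zero, ← h1]
    congr 1
    refine Finset.sum_congr rfl fun j hj => ?_
    rw [Function.update_of_ne (Finset.ne_of_mem_erase hj)]
    congr 2
    -- the Jacobi identity
    have hxj : ⁅x, v j⁆ = 0 := hc j
    rw [lie_lie (Pm θ (d i)) x (v j), hxj, lie_zero, zero_sub, lie_skew]
  rw [h0]
  conv_lhs => rw [casimir b d htr x]
  rw [map_sum, Finset.sum_congr rfl fun i _ => hsplit i, Finset.sum_add_distrib,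
    Finset.sum_congr rfl fun i _ => hS1 i, Finset.sum_congr rfl fun i _ => hS2 i,
    Finset.sum_neg_distrib, Finset.sum_comm, neg_add_eq_zero]
  rw [Finset.sum_comm (s := Finset.univ) (t := Finset.univ.erase i₀)]
  refine Finset.sum_congr rfl fun j hj => ?_
  have hij : i₀ ≠ j := (Finset.ne_of_mem_erase hj).symm
  have h1 := casimir_swap θ hθ b d hb hd (bil η v i₀ j hij) x (v j) (hv j)
  rw [show (∑ i, η (Function.update (Function.update v i₀ (Pm θ (b i))) j
        ⁅⁅Pm θ (d i), v j⁆, x⁆)) = ∑ i, bil η v i₀ j hij (Pm θ (b i)) ⁅⁅Pm θ (d i), v j⁆, x⁆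
    from rfl, h1]
  refine Finset.sum_congr rfl fun i _ => ?_
  change _ = η (Function.update (Function.update v i₀ ⁅v j, Qm θ (b i)⁆) j ⁅Qm θ (d i), x⁆)
  rw [alt_swap η v hij ⁅v j, Qm θ (b i)⁆, ← lie_skew (v j) (Qm θ (b i)), η.map_update_neg,
    neg_neg]

/-- Invariant forms do not change when the vectors of a subspace of the `-1` eigenspace are
modified by vectors of that subspace commuting with the whole subspace. -/
theorem flat_eq (θ : L →ₗ⁅ℝ⁆ L) (hθ : ∀ x, θ (θ x) = x) {k : ℕ} (η : L [⋀^Fin k]→ₗ[ℝ] ℝ)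
    (hη : IsInvForm θ η) (q a : Submodule ℝ L) (hq : ∀ x ∈ q, θ x = -x) (haq : a ≤ q)
    (hc : ∀ x ∈ a, ∀ y ∈ q, ⁅x, y⁆ = 0) (v w : Fin k → L) (hv : ∀ i, v i ∈ q)
    (hw : ∀ i, w i ∈ q) (hvw : ∀ i, v i - w i ∈ a) : η v = η w := by
  classical
  have key : ∀ s : Finset (Fin k), η (fun i => if i ∈ s then w i else v i) = η v := by
    intro s
    induction s using Finset.induction_on with
    | empty => simp
    | insert j s hj ih =>
      rw [← ih]
      set u : Fin k → L := fun i => if i ∈ s then w i else v i with hu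
      have hu' : (fun i => if i ∈ insert j s then w i else v i) = Function.update u j (w j) := by
        funext i
        by_cases h : i = j
        · subst h
          rw [Function.update_self, if_pos (Finset.mem_insert_self _ _)]
        · rw [Function.update_of_ne h, hu]
          simp only [Finset.mem_insert, h, false_or]
      have huj : u j = v j := by rw [hu]; simp only [hj, if_false]
      have huq : ∀ i, u i ∈ q := by
        intro i
        rw [hu]
        dsimp only
        split_ifs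
        exacts [hw i, hv i]
      rw [hu']
      have h1 : w j = u j + (w j - v j) := by rw [huj]; abel
      have ha : w j - v j ∈ a := by
        have := a.neg_mem (hvw j)
        rwa [neg_sub] at this
      rw [h1, η.map_update_add, Function.update_eq_self, add_eq_left]
      apply flat_zero θ hθ η hη _ _ j
      · intro i
        by_cases h : i = j
        · subst h
          rw [Function.update_self]
          exact lie_self _
        · rw [Function.update_of_ne h]
          exact hc _ (by rw [Function.update_self]; exact ha) _ (huq i)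
      · intro i
        by_cases h : i = j
        · subst h
          rw [Function.update_self]
          exact hq _ (haq ha)
        · rw [Function.update_of_ne h]
          exact hq _ (huq i)
  have h := key Finset.univ
  simp only [Finset.mem_univ, if_true] at h
  exact h.symm

/-- Invariant forms of degree more than `dim q - dim a` vanish on `q`. -/
theorem flat_dim (θ : L →ₗ⁅ℝ⁆ L) (hθ : ∀ x, θ (θ x) = x) {k : ℕ} (η : L [⋀^Fin k]→ₗ[ℝ] ℝ)
    (hη : IsInvForm θ η) (q a : Submodule ℝ L) (hq : ∀ x ∈ q, θ x = -x) (haq : a ≤ q)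
    (hc : ∀ x ∈ a, ∀ y ∈ q, ⁅x, y⁆ = 0) (hdim : finrank ℝ q < k + finrank ℝ a)
    (v : Fin k → L) (hv : ∀ i, v i ∈ q) : η v = 0 := by
  classical
  -- a complement of `a` in `q`
  obtain ⟨c, hc'⟩ := Submodule.exists_isCompl (a.comap q.subtype)
  have hdc : finrank ℝ c < k := by
    have h1 := Submodule.finrank_add_eq_of_isCompl hc'
    have h2 : finrank ℝ (a.comap q.subtype) = finrank ℝ a :=
      (Submodule.comapSubtypeEquivOfLe haq).finrank_eq
    omega
  have hdec : ∀ i, ∃ y : c, v i - ((y : q) : L) ∈ a := by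
    intro i
    have h1 : (⟨v i, hv i⟩ : q) ∈ a.comap q.subtype ⊔ c := by
      rw [hc'.sup_eq_top]; exact Submodule.mem_top
    obtain ⟨z, hz, y, hy, hzy⟩ := Submodule.mem_sup.mp h1
    refine ⟨⟨y, hy⟩, ?_⟩
    have h2 : v i = (z : L) + (y : L) := by
      have := congrArg (fun t : q => (t : L)) hzy
      simpa using this.symm
    rw [h2, add_sub_cancel_right]
    exact hz
  choose y hy using hdec
  rw [flat_eq θ hθ η hη q a hq haq hc v (fun i => ((y i : q) : L)) hv
    (fun i => (y i : q).2) hy]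
  -- the vectors `y i` are linearly dependent
  have hld : ¬LinearIndependent ℝ y := by
    intro h
    have := h.fintype_card_le_finrank
    rw [Fintype.card_fin] at this
    omega
  apply AlternatingMap.map_linearDependent
  intro h
  apply hld
  have : LinearIndependent ℝ ((q.subtype.comp c.subtype) ∘ y) := h
  exact LinearIndependent.of_comp _ this

/-- The restriction of an invariant form to `q` is pulled back from the quotient `q / a`. -/
theorem flat_quot (θ : L →ₗ⁅ℝ⁆ L) (hθ : ∀ x, θ (θ x) = x) {k : ℕ} (η : L [⋀^Fin k]→ₗ[ℝ] ℝ)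
    (hη : IsInvForm θ η) (q a : Submodule ℝ L) (hq : ∀ x ∈ q, θ x = -x) (haq : a ≤ q)
    (hc : ∀ x ∈ a, ∀ y ∈ q, ⁅x, y⁆ = 0) :
    ∃ η' : (q ⧸ a.comap q.subtype) [⋀^Fin k]→ₗ[ℝ] ℝ, ∀ v : Fin k → q,
      η (fun i => (v i : L)) = η' (fun i => (a.comap q.subtype).mkQ (v i)) := by
  obtain ⟨c, hc'⟩ := Submodule.exists_isCompl (a.comap q.subtype)
  refine ⟨η.compLinearMap (q.subtype.comp (c.subtype.comp
    (Submodule.quotientEquivOfIsCompl _ _ hc' : (q ⧸ a.comap q.subtype) →ₗ[ℝ] c))),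
    fun v => ?_⟩
  rw [AlternatingMap.compLinearMap_apply]
  apply flat_eq θ hθ η hη q a hq haq hc
  · exact fun i => (v i).2
  · intro i
    exact Submodule.coe_mem _
  · intro i
    have h1 : v i - c.subtype ((Submodule.quotientEquivOfIsCompl _ _ hc')
        ((a.comap q.subtype).mkQ (v i))) ∈ a.comap q.subtype := by
      rw [← Submodule.Quotient.mk_eq_zero, Submodule.Quotient.mk_sub, sub_eq_zero]
      exact (Submodule.mk_quotientEquivOfIsCompl_apply hc' _).symm
    exact h1

end Killing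

end Pool.Agent.Helper71.FL
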